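import Pool.Agent.helper34.NTA.Spec

/-!
# NTA, row LMP: the lamp group
-/

set_option autoImplicit false

namespace Pool.Agent.NTA

open Equiv

abbrev LMP_E (Q : Type) : Type := Q × Fin 5 → Q × Fin 5 → DihedralGroup 4

section

variable {Q : Type} [Group Q]

/-- the action on one coordinate -/
def LMP_sh (g : Q) (u : Q × Fin 5) : Q × Fin 5 := (g * u.1, u.2)

theorem LMP_sh_sh (g h : Q) (u : Q × Fin 5) : LMP_sh g (LMP_sh h u) = LMP_sh (g * h) u := by
  simp [LMP_sh, mul_assoc]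

theorem LMP_sh_one (u : Q × Fin 5) : LMP_sh (1 : Q) u = u := by
  simp [LMP_sh]

theorem LMP_sh_eq (g : Q) (u v : Q × Fin 5) : LMP_sh g⁻¹ u = v ↔ u = LMP_sh g v := by
  constructor
  · rintro rfl
    rw [LMP_sh_sh, mul_inv_cancel, LMP_sh_one]
  · rintro rfl
    rw [LMP_sh_sh, inv_mul_cancel, LMP_sh_one]

/-- the action of one element -/
def LMP_act (g : Q) : MulAut (LMP_E Q) where
  toFun f := fun u v => f (LMP_sh g⁻¹ u) (LMP_sh g⁻¹ v)
  invFun f := fun u v => f (LMP_sh g u) (LMP_sh g v)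
  left_inv f := by
    funext u v
    simp only
    rw [LMP_sh_sh, LMP_sh_sh, inv_mul_cancel, LMP_sh_one, LMP_sh_one]
  right_inv f := by
    funext u v
    simp only
    rw [LMP_sh_sh, LMP_sh_sh, mul_inv_cancel, LMP_sh_one, LMP_sh_one]
  map_mul' _ _ := rfl

/-- the action -/
def LMP_phi (Q : Type) [Group Q] : Q →* MulAut (LMP_E Q) where
  toFun g := LMP_act g
  map_one' := by
    refine MulEquiv.ext fun f => ?_
    funext u v
    show f (LMP_sh 1⁻¹ u) (LMP_sh 1⁻¹ v) = f u v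
    rw [inv_one, LMP_sh_one, LMP_sh_one]
  map_mul' g h := by
    refine MulEquiv.ext fun f => ?_
    funext u v
    show f (LMP_sh (g * h)⁻¹ u) (LMP_sh (g * h)⁻¹ v) = f (LMP_sh h⁻¹ (LMP_sh g⁻¹ u)) (LMP_sh h⁻¹ (LMP_sh g⁻¹ v))
    rw [LMP_sh_sh, LMP_sh_sh, mul_inv_rev]

open Classical in
/-- the lamps -/
noncomputable def LMP_kf (r : Fin 5 → Q) (p : Q × Fin 5) : LMP_E Q := fun u v =>
  if u = p then DihedralGroup.sr 0 else if v = p ∧ ¬ Near r u v then DihedralGroup.sr 1 else 1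

theorem LMP_near_symm (r : Fin 5 → Q) (hr : ∀ i, r i * r i = 1) (p q : Q × Fin 5) (h : Near r p q) : Near r q p := by
  obtain ⟨h1, h2⟩ := h
  refine ⟨h1.symm, ?_⟩
  rcases h2 with h2 | h2
  · exact Or.inl (by rw [← h1, h2, mul_assoc, hr, mul_one])
  · exact Or.inr (by rw [← h1, h2, mul_assoc, hr, mul_one])

theorem LMP_near_sh (r : Fin 5 → Q) (g : Q) (u v : Q × Fin 5) : Near r (LMP_sh g u) (LMP_sh g v) ↔ Near r u v := by
  unfold Near LMP_sh
  simp only [mul_assoc, mul_right_inj]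

theorem LMP_cases (r : Fin 5 → Q) (p u v : Q × Fin 5) :
    (u = p ∧ LMP_kf r p u v = DihedralGroup.sr 0) ∨ (u ≠ p ∧ v = p ∧ ¬ Near r u v ∧ LMP_kf r p u v = DihedralGroup.sr 1) ∨
      LMP_kf r p u v = 1 := by
  unfold LMP_kf
  by_cases h1 : u = p
  · exact Or.inl ⟨h1, if_pos h1⟩
  · rw [if_neg h1]
    by_cases h2 : v = p ∧ ¬ Near r u v
    · exact Or.inr (Or.inl ⟨h1, h2.1, h2.2, if_pos h2⟩)
    · exact Or.inr (Or.inr (if_neg h2))

theorem LMP_xx : (DihedralGroup.sr 0 : DihedralGroup 4) * DihedralGroup.sr 0 = 1 := by decide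

theorem LMP_yy : (DihedralGroup.sr 1 : DihedralGroup 4) * DihedralGroup.sr 1 = 1 := by decide

theorem LMP_xy : ((DihedralGroup.sr 0 : DihedralGroup 4) * DihedralGroup.sr 1) ^ 2 ≠ 1 := by decide

theorem LMP_x1 : (DihedralGroup.sr 0 : DihedralGroup 4) ≠ 1 := by decide

theorem LMP_sq (r : Fin 5 → Q) (p : Q × Fin 5) : LMP_kf r p * LMP_kf r p = 1 := by
  funext u v
  show LMP_kf r p u v * LMP_kf r p u v = 1
  rcases LMP_cases r p u v with ⟨-, h⟩ | ⟨-, -, -, h⟩ | h
  · rw [h, LMP_xx]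
  · rw [h, LMP_yy]
  · rw [h, mul_one]

theorem LMP_com (r : Fin 5 → Q) (hr : ∀ i, r i * r i = 1) (p q : Q × Fin 5) (h : Near r p q) :
    LMP_kf r p * LMP_kf r q = LMP_kf r q * LMP_kf r p := by
  funext u v
  show LMP_kf r p u v * LMP_kf r q u v = LMP_kf r q u v * LMP_kf r p u v
  rcases LMP_cases r p u v with ⟨h1, h2⟩ | ⟨h1, h2, h3, h4⟩ | h1
  · rcases LMP_cases r q u v with ⟨k1, k2⟩ | ⟨k1, k2, k3, k4⟩ | k1
    · rw [h2, k2]
    · rw [h1, k2] at k3
      exact absurd h k3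
    · rw [k1, mul_one, one_mul]
  · rcases LMP_cases r q u v with ⟨k1, k2⟩ | ⟨k1, k2, k3, k4⟩ | k1
    · rw [k1, h2] at h3
      exact absurd (LMP_near_symm r hr _ _ h) h3
    · rw [h4, k4]
    · rw [k1, mul_one, one_mul]
  · rw [h1, mul_one, one_mul]

theorem LMP_conj (r : Fin 5 → Q) (g : Q) (p : Q × Fin 5) : LMP_phi Q g (LMP_kf r p) = LMP_kf r (LMP_sh g p) := by
  funext u v
  show LMP_kf r p (LMP_sh g⁻¹ u) (LMP_sh g⁻¹ v) = LMP_kf r (LMP_sh g p) u v
  unfold LMP_kf
  by_cases h1 : LMP_sh g⁻¹ u = p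
  · rw [if_pos h1, if_pos ((LMP_sh_eq g u p).1 h1)]
  · rw [if_neg h1, if_neg (fun h => h1 ((LMP_sh_eq g u p).2 h))]
    by_cases h2 : LMP_sh g⁻¹ v = p ∧ ¬ Near r (LMP_sh g⁻¹ u) (LMP_sh g⁻¹ v)
    · rw [if_pos h2, if_pos ⟨(LMP_sh_eq g v p).1 h2.1, fun h => h2.2 ((LMP_near_sh r g⁻¹ u v).2 h)⟩]
    · rw [if_neg h2, if_neg (fun h => h2 ⟨(LMP_sh_eq g v p).2 h.1, fun h' => h.2 ((LMP_near_sh r g⁻¹ u v).1 h')⟩)]

theorem LMP_list (r : Fin 5 → Q) (p : Q × Fin 5) (l : List (Q × Fin 5)) :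
    (l.map (LMP_kf r)).prod p p = DihedralGroup.sr 0 ^ l.countP (fun q => @decide (q = p) (Classical.dec _)) := by
  induction l with
  | nil => simp
  | cons q l ih =>
    rw [List.map_cons, List.prod_cons]
    show LMP_kf r q p p * (l.map (LMP_kf r)).prod p p = _
    rw [ih]
    by_cases h : q = p
    · rw [List.countP_cons, if_pos (by simpa using h)]
      have e : LMP_kf r q p p = DihedralGroup.sr 0 := by
        unfold LMP_kf
        exact if_pos h.symm
      rw [e, pow_succ']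
    · rw [List.countP_cons, if_neg (by simpa using h), add_zero]
      have e : LMP_kf r q p p = 1 := by
        unfold LMP_kf
        rw [if_neg (fun h' => h h'.symm), if_neg (fun h' => h h'.1.symm)]
      rw [e, one_mul]

end

theorem LMP : LMP_stmt := by
  intro Q _ _ r hr
  refine ⟨SemidirectProduct (LMP_E Q) Q (LMP_phi Q), inferInstance,
    Finite.of_equiv _ SemidirectProduct.equivProd.symm, SemidirectProduct.inr,
    fun p => SemidirectProduct.inl (LMP_kf r p), SemidirectProduct.rightHom, ?_⟩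
  constructor
  · intro q
    exact SemidirectProduct.rightHom_inr q
  · intro p
    exact SemidirectProduct.rightHom_inl _
  · intro p
    show (SemidirectProduct.inl (LMP_kf r p) : SemidirectProduct (LMP_E Q) Q (LMP_phi Q)) * SemidirectProduct.inl (LMP_kf r p) = 1
    rw [← map_mul, LMP_sq, map_one]
  · intro q u a
    have h := SemidirectProduct.inl_aut (φ := LMP_phi Q) q (LMP_kf r (u, a))
    rw [LMP_conj, map_inv] at h
    exact h.symm
  · intro p q h
    show (SemidirectProduct.inl (LMP_kf r p) : SemidirectProduct (LMP_E Q) Q (LMP_phi Q)) * SemidirectProduct.inl (LMP_kf r q) =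
      SemidirectProduct.inl (LMP_kf r q) * SemidirectProduct.inl (LMP_kf r p)
    rw [← map_mul, ← map_mul, LMP_com r hr p q h]
  · intro l hl p
    have h1 : (l.map fun p => (SemidirectProduct.inl (LMP_kf r p) : SemidirectProduct (LMP_E Q) Q (LMP_phi Q))).prod =
        SemidirectProduct.inl (l.map (LMP_kf r)).prod := by
      rw [map_list_prod, List.map_map]
      rfl
    rw [h1, ← map_one (SemidirectProduct.inl : LMP_E Q →* SemidirectProduct (LMP_E Q) Q (LMP_phi Q))] at hl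
    have h2 := SemidirectProduct.inl_injective hl
    have h3 : (l.map (LMP_kf r)).prod p p = 1 := by
      rw [h2]
      rfl
    rw [LMP_list] at h3
    rcases Nat.even_or_odd' (l.countP (fun q => @decide (q = p) (Classical.dec _))) with ⟨m, hm | hm⟩
    · exact ⟨m, hm⟩
    · rw [hm, pow_succ, pow_mul, pow_two, LMP_xx, one_pow, one_mul] at h3
      exact absurd h3 LMP_x1
  · intro p q hpq hn h
    have h1 : ((SemidirectProduct.inl (LMP_kf r p) : SemidirectProduct (LMP_E Q) Q (LMP_phi Q)) * SemidirectProduct.inl (LMP_kf r q)) ^ 2 = 1 := h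
    rw [← map_mul, ← map_pow, ← map_one (SemidirectProduct.inl : LMP_E Q →* SemidirectProduct (LMP_E Q) Q (LMP_phi Q))] at h1
    have h2 := SemidirectProduct.inl_injective h1
    have h3 : ((LMP_kf r p * LMP_kf r q) ^ 2) p q = 1 := by
      rw [h2]
      rfl
    rw [Pi.pow_apply, Pi.pow_apply, Pi.mul_apply, Pi.mul_apply] at h3
    have e1 : LMP_kf r p p q = DihedralGroup.sr 0 := by
      unfold LMP_kf
      exact if_pos rfl
    have e2 : LMP_kf r q p q = DihedralGroup.sr 1 := by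
      unfold LMP_kf
      rw [if_neg hpq, if_pos ⟨rfl, hn⟩]
    rw [e1, e2] at h3
    exact LMP_xy h3

end Pool.Agent.NTA
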